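import Pool.Agent.Helper76.TX.StU

set_option autoImplicit false

/-!
Project TU, module BSX: the symbols of level 4.
-/

namespace Pool.Agent.Helper43.TX

open Pool.Agent.Helper76.TX Pool.Agent.Helper14.CV Pool.Agent.Helper28.WK Pool.Agent.Helper78.TW

/-- a linear map which vanishes on the kernel of a map to `ℂ²` has rank at most two -/
private theorem bound {X V : Type} [AddCommGroup X] [Module ℂ X] [AddCommGroup V] [Module ℂ V]
    (f : X →ₗ[ℂ] V) (Θ : X →ₗ[ℂ] (Fin 2 → ℂ)) (h : LinearMap.ker Θ ≤ LinearMap.ker f) :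
    Module.Finite ℂ (LinearMap.range f) ∧ Module.finrank ℂ (LinearMap.range f) ≤ 2 := by
  have e := Θ.quotKerEquivRange
  have hfin : Module.Finite ℂ (X ⧸ LinearMap.ker Θ) := Module.Finite.equiv e.symm
  have hle : Module.finrank ℂ (X ⧸ LinearMap.ker Θ) ≤ 2 := by
    rw [e.finrank_eq]
    have := Submodule.finrank_le (LinearMap.range Θ)
    simpa using this
  have hr : LinearMap.range f = LinearMap.range (Submodule.liftQ (LinearMap.ker Θ) f h) :=
    (Submodule.range_liftQ (LinearMap.ker Θ) f h).symm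
  rw [hr]
  refine ⟨inferInstance, ?_⟩
  exact (LinearMap.finrank_range_le _).trans hle

/-- a plane value -/
private noncomputable def pv (u1 u2 v1 v2 : ℤ) (G : ℤ → ℤ → ℂ) : ℂ :=
  edgeF 1 u1 u2 v1 v2 (act 1 0 0 2 G) (0 : ZMod (2 ^ 0)) (0 : ZMod (2 ^ 0))

private theorem pv_add (u1 u2 v1 v2 : ℤ) (G H : ℤ → ℤ → ℂ) :
    pv u1 u2 v1 v2 (G + H) = pv u1 u2 v1 v2 G + pv u1 u2 v1 v2 H := by
  simp only [pv, edgeF, act_add, Pi.add_apply]
  ring

private theorem pv_smul (u1 u2 v1 v2 : ℤ) (s : ℂ) (G : ℤ → ℤ → ℂ) :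
    pv u1 u2 v1 v2 (s • G) = s * pv u1 u2 v1 v2 G := by
  simp only [pv, edgeF, act_smul, Pi.smul_apply, smul_eq_mul]
  ring

/-- the two plane values -/
private noncomputable def Th : (ℤ → ℤ → ℂ) →ₗ[ℂ] (Fin 2 → ℂ) where
  toFun G := ![pv 1 0 0 1 G, pv 1 1 0 1 G]
  map_add' G H := by
    ext i
    fin_cases i
    · exact pv_add 1 0 0 1 G H
    · exact pv_add 1 1 0 1 G H
  map_smul' s G := by
    ext i
    fin_cases i
    · exact pv_smul 1 0 0 1 s G
    · exact pv_smul 1 1 0 1 s G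

private theorem sym11 {G : ℤ → ℤ → ℂ} (h : Sym 0 2 G) : Sym 1 1 (act 1 0 0 2 G) := by
  refine Sym.act h (by norm_num) ?_
  intro a b c d hd hb hc
  obtain ⟨b', rfl⟩ := hb
  obtain ⟨c', rfl⟩ := hc
  refine ⟨a, b', 2 * (2 ^ 1 * c'), d, ?_, ?_, ?_, ?_, ?_, ?_, ?_⟩
  · linear_combination hd
  · exact one_dvd _
  · exact ⟨c', by ring⟩
  · ring
  · ring
  · ring
  · ring

private theorem eqc0 {G : ℤ → ℤ → ℂ} (hG : Homog G) (h : EqC (act 1 0 0 2 G) 0) : EqC G 0 := by
  obtain ⟨c, hc⟩ := h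
  refine ⟨c, fun p q hpq => ?_⟩
  have h1 := hc (2 * p) q (by omega)
  have h2 := hG 2 p q two_ne_zero hpq
  rw [← h2]
  unfold act at h1
  have e1 : (1 : ℤ) * (2 * p) + 0 * q = 2 * p := by ring
  have e2 : (0 : ℤ) * (2 * p) + 2 * q = 2 * q := by ring
  rw [e1, e2] at h1
  exact h1

theorem hBsx : StBsx := by
  intro hU d hd
  have hker : LinearMap.ker (Th.domRestrict (XS 2)) ≤ LinearMap.ker ((evX d).domRestrict (XS 2)) := by
    rintro ⟨G, hG⟩ h0
    have h0 : Th G = 0 := h0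
    have hG : Sym 0 2 G := hG
    have a1 : edgeF 1 1 0 0 1 (act 1 0 0 2 G) (0 : ZMod (2 ^ 0)) (0 : ZMod (2 ^ 0)) = 0 := congrFun h0 0
    have a2 : edgeF 1 1 1 0 1 (act 1 0 0 2 G) (0 : ZMod (2 ^ 0)) (0 : ZMod (2 ^ 0)) = 0 := congrFun h0 1
    have hs : Subsingleton (ZMod (2 ^ 0)) := by
      rw [pow_zero]
      infer_instance
    have h1 : EqC (act 1 0 0 2 G) 0 := by
      refine hU ℂ inferInstance 0 0 _ (sym11 hG) (fun x y => ?_) (fun x y => ?_)
      · rw [Subsingleton.elim x 0, Subsingleton.elim y 0]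
        exact a1
      · rw [Subsingleton.elim x 0, Subsingleton.elim y 0]
        exact a2
    have h2 := eqc0 hG.1 h1
    rw [LinearMap.mem_ker]
    show evX d G = 0
    rw [evX_congr hd h2, map_zero]
  have hb := bound _ _ hker
  have hr : (XS 2).map (evX d) = LinearMap.range ((evX d).domRestrict (XS 2)) :=
    (LinearMap.range_domRestrict (XS 2) (evX d)).symm
  rw [hr]
  exact hb

end Pool.Agent.Helper43.TX
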